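import Pool.Agent.Helper9.RC2.Goals
import Pool.Agent.Helper29.ZR.Fin

/-!
# MP_b55b7c_an: the factor 2, final assembly
-/

open scoped ENNReal NNReal InnerProductSpace ComplexOrder
open Filter Topology

attribute [-instance] CStarMatrix.instAlgebra CStarMatrix.instModule CStarMatrix.instSMul
  CStarMatrix.instMulAction CStarMatrix.instDistribMulAction

noncomputable section
namespace Pool.Agent.Helper9.RC2
open RC
universe u

/-- No comparison of `1` with `0`. -/
theorem not_cu_one_zero {B : Type u} [CStarAlgebra B] [PartialOrder B] [StarOrderedRing B]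
    [Nontrivial B] :
    ¬ Cu (1 : CStarMatrix Unit Unit B) (0 : CStarMatrix Unit Unit B) := by
  intro h
  obtain ⟨v, hv⟩ := h (1 / 2) (by norm_num)
  have h1 : v * (0 : CStarMatrix Unit Unit B) * v.conjTranspose -
      (1 : CStarMatrix Unit Unit B) = -1 := by
    have h2 : v * (0 : CStarMatrix Unit Unit B) * v.conjTranspose = 0 := by
      have h3 : v * (0 : CStarMatrix Unit Unit B) = 0 := mul_zero v
      rw [h3]
      exact zero_mul _
    rw [h2, zero_sub]
  rw [h1, norm_neg] at hv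
  have : Nontrivial (CStarMatrix Unit Unit B) := by
    refine ⟨⟨1, 0, fun h4 => ?_⟩⟩
    have h5 : (1 : CStarMatrix Unit Unit B) () () = (0 : CStarMatrix Unit Unit B) () () := by
      rw [h4]
    have h6 : (1 : CStarMatrix Unit Unit B) () () = (1 : B) := by
      simp
    have h7 : (0 : CStarMatrix Unit Unit B) () () = (0 : B) := rfl
    rw [h6, h7] at h5
    exact one_ne_zero h5
  have h2 : ‖(1 : CStarMatrix Unit Unit B)‖ = 1 := CStarRing.norm_one
  rw [h2] at hv
  norm_num at hv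

theorem fixP (hT : TcgAP.{u}) (hC : CritGP.{u}) (hN : NiceP.{u}) (hL : LimEqP.{u})
    (hSB : SBP.{u}) : FixP.{u} := by
  intro A B _ _ _ _ _ _ G _ _ α j hα hj hs hNF hTr C hC0 hD
  have key : ∀ t : ℝ≥0, rc B < t → rc A ≤ 2 * (t : ℝ≥0∞) := by
    intro t ht
    unfold rc at ht
    rw [iInf_lt_iff] at ht
    obtain ⟨s, hs1⟩ := ht
    rw [iInf_lt_iff] at hs1
    obtain ⟨hc, hst⟩ := hs1
    have hst' : s < t := by exact_mod_cast hst
    have hst2 : (s : ℝ) < t := by exact_mod_cast hst'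
    have hcD : HasCompD B s := (hasComp_iff hL _).1 hc
    have : Nontrivial A := hs.1
    have : Nontrivial B := by
      refine ⟨⟨1, 0, fun h => ?_⟩⟩
      have h1 : j 1 = j 0 := by rw [h]
      rw [map_one, map_zero] at h1
      exact one_ne_zero h1
    -- there is a quasitrace of `B`
    have hne : Nonempty (QTrace B) := by
      by_contra hcon
      rw [not_nonempty_iff] at hcon
      refine not_cu_one_zero (B := B) ?_
      exact hcD Unit Unit 1 0 zero_le_one le_rfl fun σ => (hcon.false σ).elim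
    obtain ⟨ω⟩ := hne
    obtain ⟨m, hm⟩ := hSB A B G α j hα hj hs
    obtain ⟨σ, -⟩ := hm ω
    obtain ⟨φ, -⟩ := hD σ
    have hne' : Nonempty (TState A) := ⟨φ⟩
    set r₁ : ℝ := ((s : ℝ) + t) / 2 with hr₁
    have h1 : (s : ℝ) < r₁ := by rw [hr₁]; linarith
    have h2 : r₁ < t := by rw [hr₁]; linarith
    have h3 : TCG A r₁ := hT A B G α j hα hj hs hNF hne' hTr C hC0 hD s r₁ s.2 h1 hcD
    have h4 : NiceB B := hN A B G α j hα hj hs hNF hne' hTr s s.2 hcD
    have h5 : HasCompD A (2 * (t : ℝ)) := by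
      refine hC A B G α j hα hj hs h4 r₁ s (2 * (t : ℝ)) ?_ s.2 (by linarith) h3 hcD
      exact le_trans s.2 h1.le
    have h6 : HasComp A ((2 * t : ℝ≥0) : ℝ) := by
      rw [hasComp_iff hL]
      have : ((2 * t : ℝ≥0) : ℝ) = 2 * (t : ℝ) := by push_cast; rfl
      rw [this]
      exact h5
    have h7 : rc A ≤ ((2 * t : ℝ≥0) : ℝ≥0∞) :=
      iInf₂_le (f := fun (r : ℝ≥0) (_ : HasComp A r) => (r : ℝ≥0∞)) _ h6
    refine h7.trans (le_of_eq ?_)
    push_cast
    rfl
  by_cases htop : rc B = ⊤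
  · rw [htop, ENNReal.mul_top (by norm_num)]
    exact le_top
  · obtain ⟨r, hr⟩ : ∃ r : ℝ≥0, (r : ℝ≥0∞) = rc B := ⟨(rc B).toNNReal, ENNReal.coe_toNNReal htop⟩
    rw [← hr]
    refine ENNReal.le_of_forall_pos_le_add fun ε hε _ => ?_
    have h1 : rc B < ((r + ε / 2 : ℝ≥0) : ℝ≥0∞) := by
      rw [← hr]
      have : r < r + ε / 2 := lt_add_of_pos_right r (by positivity)
      exact_mod_cast this
    refine (key _ h1).trans (le_of_eq ?_)
    have h2 : (2 * (r + ε / 2) : ℝ≥0) = 2 * r + ε := by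
      rw [mul_add, mul_div_cancel₀ ε (by norm_num : (2 : ℝ≥0) ≠ 0)]
    calc 2 * ((r + ε / 2 : ℝ≥0) : ℝ≥0∞) = ((2 * (r + ε / 2) : ℝ≥0) : ℝ≥0∞) := by
          push_cast; rfl
      _ = ((2 * r + ε : ℝ≥0) : ℝ≥0∞) := by rw [h2]
      _ = _ := by push_cast; rfl

theorem finalP (hF : FixP.{u}) (hL : LimEqP.{u}) (hR : RedCompP.{u}) (hNF : NoFinP.{u})
    (hDI : DomInvP.{u}) (hDM : DomInvMatP.{u}) (hX : CrossGP.{u}) (hMS : MatSimpP.{u})
    (hSi : SimpP.{u}) : FinalP.{u} := by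
  classical
  intro A _ _ _ hs hinf hCd G _ _ α hα
  obtain ⟨C, hCd⟩ := hCd
  obtain ⟨C', hC', hD⟩ := domT_of hDI C hCd
  have hsA := hSi A hs
  refine ⟨?_, ?_⟩
  · intro B _ _ _ j hj hTr
    exact hF A B G α j hα hj hsA (noFin_self hNF hsA hinf) hTr C' hC' hD
  · intro R _ _ _ k w hk hTr
    obtain ⟨β, jR, hβ, hjR, htr, hdg⟩ := hX A G α R k w hα hk
    have hCm : 0 ≤ C' * Fintype.card G := by positivity
    have h1 : rc (CStarMatrix G G A) ≤ 2 * rc R :=
      hF (CStarMatrix G G A) R G β jR hβ hjR ((hMS A G).1 hsA)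
        (noFin_self hNF ((hMS A G).1 hsA) ((hMS A G).2 hinf)) hTr _ hCm
        (domT_mat hDM C' hC' hD G)
    refine le_trans ?_ h1
    refine le_iInf₂ fun r hr => ?_
    have h3 : HasComp A ((Fintype.card G * r : ℝ≥0) : ℝ) := by
      rw [hasComp_iff hL]
      push_cast
      exact hR A G _ ((hasComp_iff hL _).1 hr)
    have h4 : rc A ≤ ((Fintype.card G * r : ℝ≥0) : ℝ≥0∞) :=
      iInf₂_le (f := fun (r : ℝ≥0) (_ : HasComp A r) => (r : ℝ≥0∞)) _ h3
    have h5 : ((Fintype.card G * r : ℝ≥0) : ℝ≥0∞) = (r : ℝ≥0∞) * Fintype.card G := by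
      push_cast; ring
    rw [h5] at h4
    exact ENNReal.div_le_of_le_mul h4

end Pool.Agent.Helper9.RC2
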