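import Pool.Agent.Helper29.ZR.All
import Pool.Agent.Helper9.RC2.Fix
import Pool.Agent.Helper39.RC2.LOC
import Pool.Agent.Helper23.RC2.CPC
import Pool.Agent.Helper62.RC2.RIEM
import Pool.Agent.Helper14.RC2.FULL
import Pool.Agent.Helper12.RC2.BLK
import Pool.Agent.Helper34.RC2.CDG
import Pool.Agent.Helper33.RC2.CRG
import Pool.Agent.Helper13.RC2.RNK
import Pool.Agent.Helper48.RC2.VEC
import Pool.Agent.Helper94.RC2.STG
import Pool.Agent.Helper77.RC2.SYM
import Pool.Agent.Helper44.RC2.FINL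
import Pool.Agent.Helper22.RC2.POS
import Pool.Agent.Helper15.RC2.LEMS
import Pool.Agent.Helper97.RC2.INS
import Pool.Agent.Helper71.RC2.STP
import Pool.Agent.Helper35.RC2.TCGA
import Pool.Agent.Helper78.RC2.NICE

/-!
# MP_b55b7c_an: both reverse inequalities with the factor 2, all pieces together
-/

open scoped ENNReal NNReal InnerProductSpace ComplexOrder
open Filter Topology

attribute [-instance] CStarMatrix.instAlgebra CStarMatrix.instModule CStarMatrix.instSMul
  CStarMatrix.instMulAction CStarMatrix.instDistribMulAction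

noncomputable section
namespace Pool.Agent.Helper9.RC2
open RC
universe u

theorem loc : LocP.{u} := Pool.Agent.Helper39.RC2.LOC.t (tC2_of maxP) redDn_all flatP qMono_all
theorem cpc : CpcP.{u} := Pool.Agent.Helper23.RC2.CPC.t loc cover73
theorem riem : RiemP.{u} := Pool.Agent.Helper62.RC2.RIEM.t qBasicP
theorem full : FullBP.{u} := Pool.Agent.Helper14.RC2.FULL.t tFZ qOneP qMono_all qDsum_all
theorem blk : BlkP.{u} := Pool.Agent.Helper12.RC2.BLK.t qMono_all qDsum_all qBasicP
theorem cdg : CutDownGP.{u} :=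
  Pool.Agent.Helper34.RC2.CDG.t mpP qPull_all cuLeAdd_all cuSwap_all cuAdd_all cuDsumP cuTransP
    qMono_all qDsum_all
theorem crg : CritGP.{u} :=
  Pool.Agent.Helper33.RC2.CRG.t cuTransP cuDsumP qMono_all qDsum_all mpP qPull_all sB_all
    cuLeAdd_all cdg
theorem rnk : RnkP.{u} :=
  Pool.Agent.Helper13.RC2.RNK.t cuLeAdd_all cuAdd_all qDsum_all qMono_all
theorem vec : VecP.{u} := Pool.Agent.Helper48.RC2.VEC.t rnk
theorem sym : SymP.{u} :=
  Pool.Agent.Helper77.RC2.SYM.t mpP qPull_all qMono_all qDsum_all cuAdd_all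
theorem finl : FinlP.{u} :=
  Pool.Agent.Helper44.RC2.FINL.t vec Pool.Agent.Helper94.RC2.STG.t sym mpP
theorem lems : LemSP.{u} :=
  Pool.Agent.Helper15.RC2.LEMS.t cpc finl Pool.Agent.Helper22.RC2.POS.t mpP
theorem stp : StpP.{u} :=
  Pool.Agent.Helper71.RC2.STP.t rkSZ Pool.Agent.Helper97.RC2.INS.t
    Pool.Agent.Helper22.RC2.POS.t qMono_all
theorem tcga (hN : NiceP.{u}) : TcgAP.{u} :=
  Pool.Agent.Helper35.RC2.TCGA.t sB_all full hN lems stp qPull_all qCutP
theorem fix (hN : NiceP.{u}) : FixP.{u} := fixP (tcga hN) crg hN (limEqP qBasicP) sB_all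
theorem final_of (hN : NiceP.{u}) : FinalP.{u} :=
  finalP (fix hN) (limEqP qBasicP) redComp_all noFinP domInvP domInvMat_all crossGP matSimpP simpP

theorem nice : NiceP.{u} :=
  Pool.Agent.Helper78.RC2.NICE.t sB_all full riem blk qMono_all qBasicP cuLeAdd_all
theorem final_all : FinalP.{u} := final_of nice

end Pool.Agent.Helper9.RC2
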