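import Pool.Agent.Helper29.ZR.Props

/-!
# MP_b55b7c_an: both reverse inequalities with the factor 2, the statements of the packets

Everything which is needed is landed in `Helper10/RC`, `Helper29/SR`, `Helper29/AR`,
`Helper29/ZR`: the file `Pool.Agent.Helper29.ZR.All` imports all of it.
`ᴴ` below stands for `conjTranspose`.
-/

open scoped ENNReal NNReal InnerProductSpace ComplexOrder
open Filter Topology

attribute [-instance] CStarMatrix.instAlgebra CStarMatrix.instModule CStarMatrix.instSMul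
  CStarMatrix.instMulAction CStarMatrix.instDistribMulAction

noncomputable section
namespace RC
universe u

section
variable {A : Type u} [CStarAlgebra A] [PartialOrder A] [StarOrderedRing A]

/-- The unnormalised trace of a square matrix. -/
def tm (φ : TState A) {ι : Type} [Fintype ι] (h : CStarMatrix ι ι A) : ℝ :=
  ∑ i, (φ.φ (h i i)).re

end

/-- Every 2-quasitrace is a trace: it is given by a tracial state on all positive matrices. -/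
def AllTr (A : Type u) [CStarAlgebra A] [PartialOrder A] [StarOrderedRing A] : Prop :=
  ∀ σ : QTrace A, ∃ φ : TState A, ∀ (ι : Type) [Fintype ι] [DecidableEq ι]
    (a : CStarMatrix ι ι A), 0 ≤ a → σ.τ ι a = ∑ i, (φ.φ (a i i)).re

/-- Positive matrices of almost constant rank, also after a small cut. -/
def NiceB (B : Type u) [CStarAlgebra B] [PartialOrder B] [StarOrderedRing B] : Prop :=
  ∀ R η : ℝ, 0 ≤ R → 0 < η → ∃ (n : ℕ) (z : CStarMatrix (Fin n) (Fin n) B) (g : ℝ),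
    0 ≤ z ∧ 0 < g ∧ ∀ ω : QTrace B, R < ω.dim (cut z g) ∧ ω.dim z < R + η

/-- LOC. Local comparison at one trace, matrix version of `TC2P`.
PROOF. As in `tCompP` (`Helper38/RC/TComp.lean`), which does the same with `TComp0P`. Let
`ν = ι ⊕ κ`, `D = CStarMatrix ν ν A`, `a' = dsum a 0`, `b' = dsum 0 b` in `D`, `φ'` the state
`T ↦ (1/|ν|) ∑ φ (T i i)` of `D` (construct it or take it from the proof of `domMatP`). For
`σ' : QTrace D` take `σ` from `RedDnP`: `σ'.dim (one1 a') = σ.dim a / |ν|`,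
`σ'.dim (one1 b') = σ.dim b / |ν|`, so `TC2P` gives `y'` in `D` with `φ' (T * T) < η`,
`T = a' - star y' * b' * y'` (self-adjoint). Let `h' = cfc (max t 0) T`: `T ≤ h'`, and
`φ' h' ≤ φ' (|T|) ≤ √(φ' (T * T))` (Cauchy-Schwarz; or `h' ≤ (T * T / s + s) ` with
`s = √η`, since `max t 0 ≤ t²/s + s`: so `φ' h' ≤ 2√η`). With the rows
`R₀ = row0 A ι κ`, `R₁ = row1 A ι κ` (in `Helper32/RC/CutDown.lean`: `blk0 c = R₀ c R₀ᴴ`):
`a = R₀ a' R₀ᴴ ≤ (R₁ y' R₀ᴴ)ᴴ b (R₁ y' R₀ᴴ) + R₀ h' R₀ᴴ` because `b' = R₁ᴴ b R₁`; take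
`y = R₁ y' R₀ᴴ`, `h = R₀ h' R₀ᴴ = blk0 h'`, `tm φ h ≤ ∑_ν φ (h' i i) = |ν| φ' h' ≤ 2 |ν| √η`.
If `ι` is empty take `y = 0, h = 0`. USES: TC2P (`tC2_of maxP`), RedDnP (`redDn_all`), FlatP. -/
def LocP : Prop := ∀ (A : Type u) [CStarAlgebra A] [PartialOrder A] [StarOrderedRing A]
  (ι κ : Type) [Fintype ι] [DecidableEq ι] [Fintype κ] [DecidableEq κ]
  (a : CStarMatrix ι ι A) (b : CStarMatrix κ κ A), 0 ≤ a → 0 ≤ b →
  (∀ σ : QTrace A, σ.dim a < σ.dim b) → ∀ (φ : TState A) (ε : ℝ), 0 < ε →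
  ∃ (y : CStarMatrix κ ι A) (h : CStarMatrix ι ι A), 0 ≤ h ∧
    a ≤ y.conjTranspose * b * y + h ∧ tm φ h < ε

/-- CPC. Finitely many local comparisons are enough.
PROOF. Choose `y φ, h φ` for every `φ : TState A` from `LocP` and apply `CoverP` (landed as
`coverP`, in `Helper29/SR` infrastructure) with `S = TState A`,
`f φ = ε • 1 - ∑ i, (h φ) i i`: `0 < (φ (f φ)).re` is `tm φ (h φ) < ε` (`φ 1 = 1`). Enumerate
the finite set. USES: LocP, CoverP. -/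
def CpcP : Prop := ∀ (A : Type u) [CStarAlgebra A] [PartialOrder A] [StarOrderedRing A]
  (ι κ : Type) [Fintype ι] [DecidableEq ι] [Fintype κ] [DecidableEq κ]
  (a : CStarMatrix ι ι A) (b : CStarMatrix κ κ A), 0 ≤ a → 0 ≤ b →
  (∀ σ : QTrace A, σ.dim a < σ.dim b) → ∀ ε : ℝ, 0 < ε →
  ∃ (p : ℕ) (y : Fin p → CStarMatrix κ ι A) (h : Fin p → CStarMatrix ι ι A),
    (∀ i, 0 ≤ h i ∧ a ≤ (y i).conjTranspose * b * y i + h i) ∧
    ∀ φ : TState A, ∃ i, tm φ (h i) < ε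

/-- RIEM. Riemann sums for the value of a quasitrace.
PROOF. For `0 ≤ t ≤ 1`: `T t = ∑_{i<T} k_i t`, `k_i t = min 1 (T * max (t - i/T) 0)`. The
elements `cfc k_i a` commute, so `T * ω.τ a = ∑ ω.τ (cfc k_i a)` (`ω.add`, `ω.smul`). `k_i` is
`min 1 (T * s)` of `s = max (t - i/T) 0`, so `cfc k_i a = cfc (min 1 (T s)) (cut a (i/T))` and
`ω.τ (cfc k_i a) ≤ ω.dim (cut a (i/T))` (it is one of the terms of the supremum which defines
`dim`, bounded above by `QBasicP`). And `k_i t ≥ min 1 (n * max (t - (i+1)/T) 0)` for every `n`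
(if `t > (i+1)/T` then `k_i t = 1`), and `ω.τ` is monotone on commuting elements (`ω.add` and
`ω.nonneg` for the difference), so `ω.dim (cut a ((i+1)/T)) ≤ ω.τ (cfc k_i a)`.
USES: QBasicP. -/
def RiemP : Prop := ∀ (B : Type u) [CStarAlgebra B] [PartialOrder B] [StarOrderedRing B]
  (ω : QTrace B) (ι : Type) [Fintype ι] [DecidableEq ι] (a : CStarMatrix ι ι B) (T : ℕ),
  0 ≤ a → a ≤ 1 → 0 < T →
  ∑ i ∈ Finset.range T, ω.dim (cut a (((i : ℝ) + 1) / T)) ≤ T * ω.τ ι a ∧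
  T * ω.τ ι a ≤ ∑ i ∈ Finset.range T, ω.dim (cut a ((i : ℝ) / T))

/-- FULL. Small full matrices over the fixed point algebra, exact version.
PROOF. `TFP` gives `n, c, L` with `0 ≤ c`, `1 ≤ L ω.dim c` for all `ω`, `σ.dim (mp j c) ≤ θ`;
divide `c` by its norm plus one (the ranks do not change: `ω.dim (t • c) = ω.dim c` by `QMonoP`
and `Cu`), so `c ≤ 1`. Let `p` be a natural number with `(1 + ρ) L < p`, and `C = c` repeated
`p` times along the diagonal, index `Fin p × Fin n` (`rep (Fin p) c`), `ω.dim C = p ω.dim c`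
(as for `QDgP`; there are lemmas for `rep` in `Helper16/ZR/RoomB.lean`, `Helper39/ZR/RoomX.lean`).
`ω.dim (1 : 1 × 1 matrix) + ρ = 1 + ρ < p ω.dim c`, so `Cu 1 C` by `HasCompD B ρ`: there is
`v : CStarMatrix Unit (Fin p × Fin n) B` with `‖v C vᴴ - 1‖ < 1/2`; `w = v C vᴴ` is positive and
invertible, replace `v` by `w^(-1/2) v` (`cfc (t ↦ (max t (1/2))^(-1/2)) w`): `v C vᴴ = 1`. Write
`v = (y_k)_k`: `v C vᴴ = ∑ y_k c y_kᴴ`. USES: TFP (`tFZ`), QOneP, QDgP, QMonoP. -/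
def FullBP : Prop := ∀ (A B : Type u) [CStarAlgebra A] [PartialOrder A] [StarOrderedRing A]
  [CStarAlgebra B] [PartialOrder B] [StarOrderedRing B] (G : Type) [Group G] [Fintype G]
  (α : G → A ≃⋆ₐ[ℂ] A) (j : B →⋆ₐ[ℂ] A), IsAct α → IsFix α j → Simp A → NoFin A →
  Nonempty (TState A) → ∀ ρ : ℝ, 0 ≤ ρ → HasCompD B ρ → ∀ θ : ℝ, 0 < θ →
  ∃ (n p : ℕ) (c : CStarMatrix (Fin n) (Fin n) B) (y : Fin p → CStarMatrix Unit (Fin n) B),
    0 ≤ c ∧ c ≤ 1 ∧ ∑ k, y k * c * (y k).conjTranspose = 1 ∧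
    ∀ σ : QTrace A, σ.dim (mp j c) ≤ θ

/-- NICE. Elements of almost constant rank.
PROOF. Let `m` be the constant of `SBP` (increase it to `m ≥ 1`), `θ = η / (8 m)`, `c, y` from
`FullBP` for `θ`; `ω.dim c ≤ m σ.dim (mp j c) ≤ m θ = η/8` for every `ω : QTrace B`. Let `q` be
the square root of `c`, `x_k = y_k q` (`1 × n`), `P = ∑_k x_kᴴ x_k = ∑_k q y_kᴴ y_k q` (`n × n`
matrix), `P ≤ K • c` with `K = ∑ ‖y_k‖²`. For a natural number `M ≥ K`, `M ≥ 1`, `a = (1/M) • P`: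
`0 ≤ a ≤ c ≤ 1`, so `ω.dim a ≤ ω.dim c ≤ η/8`; and `ω.τ a = 1/M` for every `ω`: `ω` is a trace
(`AllTr B`), so `ω.τ` is additive, and `ω.τ (x_kᴴ x_k) = ω.τ (x_k x_kᴴ)` (`ω.trace`),
`∑ x_k x_kᴴ = ∑ y_k c y_kᴴ = 1`, `ω.τ 1 = 1`. Let `M ≥ 8/η` too and let `T` be a natural number
with `R + η/2 ≤ T/M ≤ R + 3η/4`, `T ≥ 1`. Let `z` be the diagonal matrix with the `T` diagonal
blocks `cut a ((i+1)/T)`, `i < T` (index `Fin T × Fin n`, then reindexed to `Fin (T * n)`; or the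
index type can be moved by a lemma), `g = 1/T`. Rank of `z`: `∑_{i<T} ω.dim (cut a ((i+1)/T)) ≤
T ω.τ a = T/M < R + η` (`RiemP`). `cut z g` has the blocks
`cut (cut a ((i+1)/T)) (1/T) = cut a ((i+2)/T)`; by `RiemP`,
`T/M ≤ ∑_{i<T} ω.dim (cut a (i/T)) ≤ 2 ω.dim a + ∑_{i<T} ω.dim (cut a ((i+2)/T))` (the last two
terms of the right sum are 0 as `a ≤ 1`, it does not matter). So
`ω.dim (cut z g) ≥ T/M - η/4 ≥ R + η/4 > R`.
USES: SBP, FullBP, RiemP, QMonoP, QDsumP (or QDgP-like lemma for block diagonal matrices: by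
induction on `T` with `dsum` the index type becomes a sum type; it is easier to prove, by
induction on `T`: for `f : ℕ → CStarMatrix (Fin n) (Fin n) B`, all `f i ≥ 0`, there is
`N` and `z : CStarMatrix (Fin N) (Fin N) B`, `z ≥ 0`, with `ω.dim z = ∑_{i<T} ω.dim (f i)` and
`ω.dim (cut z g) = ∑_{i<T} ω.dim (cut (f i) g)` for all `ω, g`, with `cut_dsum` of
`Helper32/RC/CutDown.lean`, `QDsumP` and a reindexing of `Fin N ⊕ Fin n`). -/
def NiceP : Prop := ∀ (A B : Type u) [CStarAlgebra A] [PartialOrder A] [StarOrderedRing A]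
  [CStarAlgebra B] [PartialOrder B] [StarOrderedRing B] (G : Type) [Group G] [Fintype G]
  (α : G → A ≃⋆ₐ[ℂ] A) (j : B →⋆ₐ[ℂ] A), IsAct α → IsFix α j → Simp A → NoFin A →
  Nonempty (TState A) → AllTr B → ∀ ρ : ℝ, 0 ≤ ρ → HasCompD B ρ → NiceB B

/-- BLK (used by NICE). Block diagonal matrices with index `Fin N`.
PROOF. Induction on `T`: `T = 0`: `N = 0`, `z = 0`. Step: `dsum z (f T)` with index
`Fin N ⊕ Fin n`, reindexed along `finSumFinEquiv : Fin N ⊕ Fin n ≃ Fin (N + n)`. Reindexing a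
square matrix along `e` is conjugation by the permutation matrix `W` (`W i k = 1` if `k = e i`,
`W Wᴴ = 1`, `Wᴴ W = 1`), so it preserves positivity, commutes with `cut` (`IntP`:
`W cfc F (x) Wᴴ = cfc F (W x Wᴴ)`, or: conjugation by `W` is a star algebra isomorphism
`CStarMatrix (Fin N ⊕ Fin n) (Fin N ⊕ Fin n) B ≃⋆ₐ CStarMatrix (Fin (N+n)) (Fin (N+n)) B`, use
`StarAlgHomClass.map_cfc` or the lemma `cfc_hom` of `Helper32/RC/CutDown.lean`) and `dim`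
(`QMonoP` with `Cu` both ways). Then `cut_dsum` and `QDsumP`.
USES: QMonoP, QDsumP, QBasicP. -/
def BlkP : Prop := ∀ (B : Type u) [CStarAlgebra B] [PartialOrder B] [StarOrderedRing B]
  (n T : ℕ) (f : ℕ → CStarMatrix (Fin n) (Fin n) B), (∀ i, 0 ≤ f i) →
  ∃ (N : ℕ) (z : CStarMatrix (Fin N) (Fin N) B), 0 ≤ z ∧ ∀ ω : QTrace B,
    ω.dim z = ∑ i ∈ Finset.range T, ω.dim (f i) ∧
    ∀ g : ℝ, 0 < g → ω.dim (cut z g) = ∑ i ∈ Finset.range T, ω.dim (cut (f i) g)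

/-- CDG. `CutDownP` with an arbitrary matrix over `B` in place of `dg (Fin J) f`.
PROOF. Copy the proof of `cutDownP` (`Helper32/RC/CutDown.lean`, last theorem), with `μ` in place
of `Fin J`, `z` in place of `dg (Fin J) f` and `mp j z` in place of `dg (Fin J) (j f)`; the
equality `mp_dg` becomes `rfl`, nothing else about `dg` is used. -/
def CutDownGP : Prop := ∀ (A : Type u) [CStarAlgebra A] [PartialOrder A] [StarOrderedRing A]
  (B : Type u) [CStarAlgebra B] [PartialOrder B] [StarOrderedRing B]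
  (G : Type) [Group G] [Fintype G] (α : G → A ≃⋆ₐ[ℂ] A) (j : B →⋆ₐ[ℂ] A), IsAct α → IsFix α j →
  ∀ (ι κ μ : Type) [Fintype ι] [DecidableEq ι] [Fintype κ] [DecidableEq κ]
    [Fintype μ] [DecidableEq μ]
    (a : CStarMatrix ι ι A) (b : CStarMatrix κ κ A) (z : CStarMatrix μ μ B)
    (y : CStarMatrix κ (ι ⊕ μ) A) (c : CStarMatrix (ι ⊕ μ) (ι ⊕ μ) A) (δ s : ℝ),
    0 ≤ a → 0 ≤ b → 0 ≤ z → 0 ≤ c → 0 < δ →
    dsum a (mp j z) ≤ y.conjTranspose * b * y + c +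
      δ • (1 : CStarMatrix (ι ⊕ μ) (ι ⊕ μ) A) →
    (∀ σ : QTrace A, σ.dim c ≤ s) →
    ∃ (a₁ : CStarMatrix ι ι A) (e₀ : CStarMatrix ι ι B) (e₁ d : CStarMatrix μ μ B),
      0 ≤ a₁ ∧ 0 ≤ e₀ ∧ 0 ≤ e₁ ∧ 0 ≤ d ∧
      Cu (cut a (4 * δ)) (dsum a₁ (mp j e₀)) ∧
      Cu (dsum a₁ (mp j d)) b ∧
      Cu (cut z (4 * δ)) (dsum d e₁) ∧
      (∀ σ : QTrace A, σ.dim (mp j e₀) ≤ Fintype.card G * s) ∧
      (∀ σ : QTrace A, σ.dim (mp j e₁) ≤ Fintype.card G * s)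

/-- CRG. The criterion with a gap in `A`.
PROOF. As `critP` (`Helper10/RC/Crit.lean`). Let `a, b` have
`σ.dim a + r < σ.dim b`, `ε > 0`, `m` the constant of `SBP`, `n = |G|`, `η = (r - ρ - r₁)/4 > 0`.
`NiceB B` with `R = ρ + η`, gives `z, g` with `ρ + η < ω.dim (cut z g)`,
`ω.dim z < ρ + 2 η`. Then `σ.dim (dsum a (mp j z)) + r₁ = σ.dim a + ω.dim z + r₁ < σ.dim b` with
the `ω` of `QPullP` for `σ`. Choose `δ > 0` with `4 δ ≤ ε/2`, `4 δ ≤ g`, `2 m n δ < η`.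
`TCG A r₁` gives `y, c`; `CutDownGP` with `s = δ` gives `a₁, e₀, e₁, d`. For `ω : QTrace B`:
`ω.dim e₀ ≤ m n δ`, `ω.dim e₁ ≤ m n δ`, `ω.dim (cut z g) ≤ ω.dim (cut z (4 δ)) ≤
ω.dim d + ω.dim e₁` (`cut z g ≤ cut z (4δ)`, `CuLeAddP` and `QMonoP`), so
`ω.dim e₀ + ρ ≤ m n δ + ρ < ρ + η - m n δ < ω.dim d`, and `Cu e₀ d` in `B` by `HasCompD B ρ`.
The end is the end of `critP`. USES: as `critP` with CutDownGP in place of CutDownP. -/
def CritGP : Prop := ∀ (A : Type u) [CStarAlgebra A] [PartialOrder A] [StarOrderedRing A]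
  (B : Type u) [CStarAlgebra B] [PartialOrder B] [StarOrderedRing B]
  (G : Type) [Group G] [Fintype G] (α : G → A ≃⋆ₐ[ℂ] A) (j : B →⋆ₐ[ℂ] A), IsAct α → IsFix α j →
  Simp A → NiceB B → ∀ r₁ ρ r : ℝ, 0 ≤ r₁ → 0 ≤ ρ → ρ + r₁ < r → TCG A r₁ → HasCompD B ρ →
  HasCompD A r

/-- RNK (used by VEC). The rank of a compression.
PROOF. `q = √z`, `N = nE δ S = (1 - S/δ)_+`, `X = q N q ≥ 0` (`0 ≤ N ≤ 1`), `z = X + q (1 - N) q`.
`CuAddP` with `s = g`, `t = 0`: `Cu (cut z g) (dsum (cut X g) (cut (q (1-N) q) 0))`, and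
`cut (q (1-N) q) 0 = q (1-N) q` is `Cu` below `1 - N`, which is `≤ S/δ`. So
`ω.dim (cut z g) ≤ ω.dim (cut X g) + ω.dim S` by `QMonoP`, `QDsumP`, `CuLeAddP`. -/
def RnkP : Prop := ∀ (B : Type u) [CStarAlgebra B] [PartialOrder B] [StarOrderedRing B]
  (n : Type) [Fintype n] [DecidableEq n] (z q S : CStarMatrix n n B) (δ g : ℝ), 0 ≤ z → 0 ≤ q →
  q * q = z → 0 ≤ S → 0 < δ → 0 < g → 0 ≤ q * nE δ S * q ∧
  ∀ ω : QTrace B, ω.dim (cut z g) ≤ ω.dim (cut (q * nE δ S * q) g) + ω.dim S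

/-- VEC. Exact comparison in `B` gives a bounded column which avoids `S`.
PROOF. `q = √z`, `N = nE δ S`, `X = q N q`. By `RnkP` `ω.dim e + ρ < ω.dim (cut X g)` for all
`ω`, so `Cu e (cut X g)`: there is `w` with `‖w (cut X g) wᴴ - e‖ < d/2`. Let
`t = (cut X g)^(1/2) wᴴ` (index `n × ν`), `tᴴ t = w (cut X g) wᴴ`, so `e - d/2 ≤ tᴴ t ≤ e + d/2`.
Let `k = cfc (min 1 (2 x / d)) e`, `r = cfc (x ↦ 1 / max x g) X`, `v = r t k`, `u = N q v`.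
(i) `uᴴ z u = vᴴ q N q q N q v = vᴴ X² v = k tᴴ r X² r t k = k tᴴ t k`, because
`x / max x g * √(max (x - g) 0) = √(max (x - g) 0)`. And `k tᴴ t k ≥ k (e - d/2) k ≥ e - d`
(`x min(1,2x/d)² ≥ x - d/2` for `x ≥ 0`, `k² ≤ 1`).
(ii) `uᴴ u = vᴴ q N² q v ≤ vᴴ q q v = vᴴ z v ≤ K vᴴ v = K k tᴴ r² t k ≤ (K/g²) k tᴴ t k ≤
(K/g²) k (e + d/2) k ≤ (2K/g²) e` (`min(1,2x/d)² (x + d/2) ≤ 2 x`: for `x ≥ d/2` it is
`x + d/2 ≤ 2x`, for `x < d/2` it is `≤ (2x/d) d = 2x`).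
(iii) `uᴴ S u = vᴴ q (N S N) q v ≤ δ vᴴ q N N q v = δ uᴴ u` since `s (1 - s/δ)_+² ≤ δ (1-s/δ)_+²`.
(iv) `k = (cfc (x ↦ 2/d / max 1 (2x/d)) e) * e` (`min 1 s = s / max 1 s`), so `u = u' e`.
USES: RnkP. -/
def VecP : Prop := ∀ (B : Type u) [CStarAlgebra B] [PartialOrder B] [StarOrderedRing B]
  (ρ : ℝ), HasCompD B ρ → ∀ (n ν : Type) [Fintype n] [DecidableEq n] [Fintype ν]
  [DecidableEq ν] (z S : CStarMatrix n n B) (e : CStarMatrix ν ν B) (K δ g d : ℝ), 0 ≤ z →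
  z ≤ K • (1 : CStarMatrix n n B) → 0 ≤ K → 0 ≤ S → 0 ≤ e → 0 < δ → 0 < g → 0 < d →
  (∀ ω : QTrace B, ω.dim e + ρ + ω.dim S < ω.dim (cut z g)) →
  ∃ u u' : CStarMatrix n ν B, u = (u' * e : CStarMatrix n ν B) ∧
    e ≤ u.conjTranspose * z * u + d • (1 : CStarMatrix ν ν B) ∧
    u.conjTranspose * u ≤ (2 * K / g ^ 2) • e ∧
    u.conjTranspose * S * u ≤ δ • (u.conjTranspose * u)

/-- STG. One stage of the absorption.
PROOF. `f' = f + c y u`, `W = (c y)ᴴ f`, so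
`f'ᴴ f' = fᴴ f + (Wᴴ u + uᴴ W) + (c y u)ᴴ (c y u)`. `‖Wᴴ u‖² = ‖uᴴ W Wᴴ u‖ ≤ ‖uᴴ S u‖ ≤
δ ‖uᴴ u‖ ≤ δ L`, so `Wᴴ u + uᴴ W ≥ -2 √(δ L)`. The last term is `≥ 0`, and
`≥ uᴴ z u - uᴴ h u ≥ e - d - uᴴ h u`. -/
def StgP : Prop := ∀ (A : Type u) [CStarAlgebra A] [PartialOrder A] [StarOrderedRing A]
  (κ' κ n ν : Type) [Fintype κ'] [DecidableEq κ'] [Fintype κ] [DecidableEq κ] [Fintype n]
  [DecidableEq n] [Fintype ν] [DecidableEq ν]
  (c : CStarMatrix κ' κ A) (y : CStarMatrix κ n A) (f : CStarMatrix κ' ν A)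
  (u : CStarMatrix n ν A) (z S h : CStarMatrix n n A) (e : CStarMatrix ν ν A) (δ L d : ℝ),
  0 ≤ δ → 0 ≤ L →
  ((c * y).conjTranspose * f) * ((c * y).conjTranspose * f).conjTranspose ≤ S →
  u.conjTranspose * S * u ≤ δ • (u.conjTranspose * u) →
  u.conjTranspose * u ≤ L • (1 : CStarMatrix ν ν A) →
  z ≤ (c * y).conjTranspose * (c * y) + h →
  e ≤ u.conjTranspose * z * u + d • (1 : CStarMatrix ν ν A) →
  f.conjTranspose * f ≤ (f + c * y * u).conjTranspose * (f + c * y * u) +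
      (2 * Real.sqrt (δ * L)) • (1 : CStarMatrix ν ν A) ∧
  e ≤ (f + c * y * u).conjTranspose * (f + c * y * u) + u.conjTranspose * h * u +
      (d + 2 * Real.sqrt (δ * L)) • (1 : CStarMatrix ν ν A)

/-- SYM. The symmetrised square of a column with small support.
PROOF. Let `S₀ = W Wᴴ`, `T g = mp (α g) S₀ ≥ 0`, `S' = ∑ g, T g`; the entries of `S'` are
invariant, so `S' = mp j S` with `S ≥ 0` (as in the proof of `cutDownP`), and `S₀ = T 1 ≤ S'`.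
For `σ : QTrace A`: `σ.dim (T g) = σg.dim S₀` (`QPullP` for `α g`), `S₀ = W Wᴴ`,
`W = W' * mp j e`, so `σg.dim S₀ ≤ σg.dim (mp j e) ≤ θ` (`Cu (W Wᴴ) ((mp j e)²)`,
`Cu ((mp j e)²) (mp j e)`), and `σ.dim S' ≤ |G| θ` by `dim_sum_le` (`Helper32/RC/CutDown.lean`).
USES: MpP, QPullP, QMonoP, QDsumP, CuAddP. -/
def SymP : Prop := ∀ (A : Type u) [CStarAlgebra A] [PartialOrder A] [StarOrderedRing A]
  (B : Type u) [CStarAlgebra B] [PartialOrder B] [StarOrderedRing B]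
  (G : Type) [Group G] [Fintype G] (α : G → A ≃⋆ₐ[ℂ] A) (j : B →⋆ₐ[ℂ] A), IsAct α → IsFix α j →
  ∀ (n ν : Type) [Fintype n] [DecidableEq n] [Fintype ν] [DecidableEq ν]
    (W W' : CStarMatrix n ν A) (e : CStarMatrix ν ν B) (θ : ℝ), 0 ≤ e →
    W = (W' * mp j e : CStarMatrix n ν A) →
    (∀ σ : QTrace A, σ.dim (mp j e) ≤ θ) →
    ∃ S : CStarMatrix n n B, 0 ≤ S ∧ W * W.conjTranspose ≤ mp j S ∧
      ∀ σ : QTrace A, σ.dim (mp j S) ≤ Fintype.card G * θ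

/-- FINL. Absorption of `e` for finitely many local comparisons.
PROOF. Induction on `p`. `p = 0`: `Y = 0, F = 0`. Step: let `Y, F, v` be given for the first `p`
machines with `η/2` in place of `η`, `f = c Y = F (mp j e)`. `W = (c y_p)ᴴ f = ((c y_p)ᴴ F) mp j e`;
`SymP` gives `S` (over `B`), `ω.dim S ≤ m |G| θ`, `ω.dim e ≤ m θ` for every `ω` (property of `m`
and `σ`). Let `L = 2K/g²`, `d = η/4`, `δ > 0` with `2 √(δ L) ≤ η/4`. `VecP` gives `u = u' e` over `B`;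
apply `mp j` to its four conclusions (`mp j` is multiplicative, preserves `≤`, `1`, `ᴴ`,
multiples: `MpP` and `mp_mul`), and `e ≤ 1` gives `uᴴ u ≤ L`. `StgP` with `f` and `mp j u`:
the new `f' = f + c y_p (mp j u) = c (Y + y_p (mp j u)) = (F + c y_p (mp j u')) (mp j e)`. For
`i < p`: `mp j e ≤ fᴴ f + v_iᴴ h_i v_i + η/2 ≤ f'ᴴ f' + v_iᴴ h_i v_i + η`; for `i = p` the
second conclusion of `StgP` with `v_p = mp j u`. USES: VecP, StgP, SymP, MpP. -/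
def FinlP : Prop := ∀ (A : Type u) [CStarAlgebra A] [PartialOrder A] [StarOrderedRing A]
  (B : Type u) [CStarAlgebra B] [PartialOrder B] [StarOrderedRing B]
  (G : Type) [Group G] [Fintype G] (α : G → A ≃⋆ₐ[ℂ] A) (j : B →⋆ₐ[ℂ] A), IsAct α → IsFix α j →
  ∀ (m ρ θ K g : ℝ), 0 ≤ m → 0 ≤ ρ → 0 ≤ θ → 0 ≤ K → 0 < g → HasCompD B ρ →
  (∀ ω : QTrace B, ∃ σ : QTrace A, ∀ (κ : Type) [Fintype κ] [DecidableEq κ]
    (x : CStarMatrix κ κ B), 0 ≤ x → ω.dim x ≤ m * σ.dim (mp j x)) →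
  ∀ (κ' κ n ν : Type) [Fintype κ'] [DecidableEq κ'] [Fintype κ] [DecidableEq κ] [Fintype n]
  [DecidableEq n] [Fintype ν] [DecidableEq ν] (e : CStarMatrix ν ν B) (z : CStarMatrix n n B)
  (c : CStarMatrix κ' κ A), 0 ≤ e → e ≤ 1 → 0 ≤ z → z ≤ K • (1 : CStarMatrix n n B) →
  (∀ σ : QTrace A, σ.dim (mp j e) ≤ θ) →
  (∀ ω : QTrace B, ρ + m * (Fintype.card G + 1) * θ < ω.dim (cut z g)) →
  ∀ (p : ℕ) (y : Fin p → CStarMatrix κ n A) (h : Fin p → CStarMatrix n n A),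
  (∀ i, 0 ≤ h i ∧ mp j z ≤ (c * y i).conjTranspose * (c * y i) + h i) → ∀ η : ℝ, 0 < η →
  ∃ (Y : CStarMatrix κ ν A) (F : CStarMatrix κ' ν A) (v : Fin p → CStarMatrix n ν A),
    c * Y = F * mp j e ∧
    ∀ i, (v i).conjTranspose * v i ≤ (2 * K / g ^ 2) • (1 : CStarMatrix ν ν A) ∧
      mp j e ≤ (c * Y).conjTranspose * (c * Y) + (v i).conjTranspose * h i * v i +
        η • (1 : CStarMatrix ν ν A)

/-- POS. The positive part and the trace.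
PROOF. `h = cfc (max t 0) T`, `T ≤ h`, `0 ≤ h`. (1) If `T ≤ Q`, `0 ≤ Q`, then `tm φ h ≤ tm φ Q`:
let `g_n = cfc (min 1 (n max(t,0))) T`, `0 ≤ g_n ≤ 1`; `g_n T g_n ≤ g_n Q g_n`, and
`tm φ (g_n Q g_n) = tm φ (√Q g_n² √Q) ≤ tm φ Q`, while `g_n T g_n → h` in norm
(`|t min(1,nt)² - t| ≤ 1/n` for `t ≥ 0`) and `tm φ` is continuous (or: `tm φ` is positive and
`h ≤ g_n T g_n + (1/n) • 1`, so `tm φ h ≤ tm φ Q + |ν|/n` for all `n`).
(2) `tm φ (vᴴ h v) = tm φ (√h v vᴴ √h) ≤ L tm φ h` if `vᴴ v ≤ L` (`v vᴴ ≤ L` too, by the norm).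
Trace property of `tm φ` on rectangular matrices: `∑_i φ ((x y)_ii) = ∑_k φ ((y x)_kk)` by
`φ.trace`; or take the quasitrace of `QOfTP` and `σ.trace`. -/
def PosP : Prop := ∀ (A : Type u) [CStarAlgebra A] [PartialOrder A] [StarOrderedRing A]
  (ν n : Type) [Fintype ν] [DecidableEq ν] [Fintype n] [DecidableEq n] (T : CStarMatrix ν ν A),
  IsSelfAdjoint T → ∃ h : CStarMatrix ν ν A, 0 ≤ h ∧ T ≤ h ∧
    ∀ (φ : TState A) (v : CStarMatrix n ν A) (k : CStarMatrix n n A) (L : ℝ), 0 ≤ L → 0 ≤ k →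
      v.conjTranspose * v ≤ L • (1 : CStarMatrix ν ν A) →
      T ≤ v.conjTranspose * k * v → tm φ h ≤ L * tm φ k

/-- LEMS. Tracial absorption of a small element of the fixed point algebra.
PROOF. Let `K` with `z ≤ K` (`K = ‖z‖`), `L = 2K/g²`, `b = cᴴ c`. `CpcP` for `a := mp j z`, `b` and
`ε/(2(L + 1))` gives machines `(y_i, h_i)`, `i < p`, with `mp j z ≤ (c y_i)ᴴ (c y_i) + h_i`
(`y_iᴴ b y_i = (c y_i)ᴴ (c y_i)`). `FinlP` with `η = ε` gives `Y, F, v`. Let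
`T = mp j e - (c Y)ᴴ (c Y) - ε • 1` and `h` from `PosP`: `mp j e ≤ (c Y)ᴴ (c Y) + h + ε`. For every
`φ` there is `i` with `tm φ (h_i) < ε/(2(L+1))`, and `T ≤ v_iᴴ h_i v_i`, so
`tm φ h ≤ L tm φ (h_i) ≤ ε`. (If `p = 0` there is no tracial state and nothing to show.)
USES: CpcP, FinlP, PosP. -/
def LemSP : Prop := ∀ (A : Type u) [CStarAlgebra A] [PartialOrder A] [StarOrderedRing A]
  (B : Type u) [CStarAlgebra B] [PartialOrder B] [StarOrderedRing B]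
  (G : Type) [Group G] [Fintype G] (α : G → A ≃⋆ₐ[ℂ] A) (j : B →⋆ₐ[ℂ] A), IsAct α → IsFix α j →
  ∀ (m ρ θ g : ℝ), 0 ≤ m → 0 ≤ ρ → 0 ≤ θ → 0 < g → HasCompD B ρ →
  (∀ ω : QTrace B, ∃ σ : QTrace A, ∀ (κ : Type) [Fintype κ] [DecidableEq κ]
    (x : CStarMatrix κ κ B), 0 ≤ x → ω.dim x ≤ m * σ.dim (mp j x)) →
  ∀ (κ' κ n ν : Type) [Fintype κ'] [DecidableEq κ'] [Fintype κ] [DecidableEq κ] [Fintype n]
  [DecidableEq n] [Fintype ν] [DecidableEq ν] (e : CStarMatrix ν ν B) (z : CStarMatrix n n B)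
  (c : CStarMatrix κ' κ A), 0 ≤ e → e ≤ 1 → 0 ≤ z →
  (∀ σ : QTrace A, σ.dim (mp j e) ≤ θ) →
  (∀ ω : QTrace B, ρ + m * (Fintype.card G + 1) * θ < ω.dim (cut z g)) →
  (∀ σ : QTrace A, σ.dim (mp j z) < σ.dim (c.conjTranspose * c)) → ∀ ε : ℝ, 0 < ε →
  ∃ (Y : CStarMatrix κ ν A) (h : CStarMatrix ν ν A), 0 ≤ h ∧
    mp j e ≤ (c * Y).conjTranspose * (c * Y) + h + ε • (1 : CStarMatrix ν ν A) ∧
    ∀ φ : TState A, tm φ h ≤ ε

/-- INS. The insertion inequality.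
PROOF. `S = F Fᴴ`, `N = nE δ S`, `g = √2 • (N f₀ x)`. Let `Q = cfc q S`, `q s = 1` for `s ≤ δ`,
`q s = 0` for `s ≥ 2δ`, linear between (`q s = max 0 (min 1 (2 - s/δ))`), so `Q N = N`, `Q g = g`,
and `Fᴴ Q² F ≤ 2δ` (`‖Q F‖² = ‖Q S Q‖ ≤ sup s q(s)² ≤ 2 δ`). From
`0 ≤ (g/√2 + √2 Q F)ᴴ (g/√2 + √2 Q F) = gᴴ g / 2 + gᴴ Q F + Fᴴ Q g + 2 Fᴴ Q² F` and `Q g = g`:
`Fᴴ g + gᴴ F ≥ - gᴴ g / 2 - 4 δ`. So `(F + g)ᴴ (F + g) ≥ Fᴴ F + gᴴ g / 2 - 4δ`, and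
`gᴴ g / 2 = (N f₀ x)ᴴ (N f₀ x)`. -/
def InsP : Prop := ∀ (A : Type u) [CStarAlgebra A] [PartialOrder A] [StarOrderedRing A]
  (κ ι ν : Type) [Fintype κ] [DecidableEq κ] [Fintype ι] [DecidableEq ι] [Fintype ν]
  [DecidableEq ν] (F : CStarMatrix κ ι A) (f₀ : CStarMatrix κ ν A) (x : CStarMatrix ν ι A)
  (δ : ℝ), 0 < δ →
  F.conjTranspose * F + (nE δ (F * F.conjTranspose) * f₀ * x).conjTranspose *
      (nE δ (F * F.conjTranspose) * f₀ * x) ≤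
    (F + Real.sqrt 2 • (nE δ (F * F.conjTranspose) * f₀ * x)).conjTranspose *
      (F + Real.sqrt 2 • (nE δ (F * F.conjTranspose) * f₀ * x)) +
      (4 * δ) • (1 : CStarMatrix ι ι A)

/-- STP. One insertion step.
PROOF. `q = √a`, `s = √b` (positive roots, given). `S = F Fᴴ`, `F = s Y = F' q`. `σ.dim S ≤ σ.dim a`
(`S = F' a F'ᴴ`, `QMonoP`). For `δ = ε/16` let `N = nE δ S`, `c = N s` (`κ × κ`),
`cᴴ c = s N N s`; `RkSP` (with `c := s`): `σ.dim b = σ.dim s ≤ σ.dim (s (N N) s) + σ.dim S`, so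
`σ.dim (cᴴ c) ≥ σ.dim b - σ.dim a > r` (`σ.dim s = σ.dim b`: `Cu` both ways, or apply `RkSP`
with a root of `s`...: `Cu s b` since `s` is a limit of `f(b) b f(b)`; `QMonoP`). The hypothesis
`hS` gives `Y₁, h₁` with `e ≤ (c Y₁)ᴴ (c Y₁) + h₁ + ε₁`, `tm φ h₁ ≤ ε₁`, where
`ε₁ = ε / (4 (1 + ‖x q‖²))`. `InsP` with `f₀ = s Y₁`, `x := x q`: with
`F_new = F + √2 N s Y₁ x q`:
`Fᴴ F + (x q)ᴴ (c Y₁)ᴴ (c Y₁) (x q) ≤ F_newᴴ F_new + 4 δ`. So
`P + (x q)ᴴ e (x q) ≤ Fᴴ F + h + ε/4 + (x q)ᴴ ((c Y₁)ᴴ (c Y₁) + h₁ + ε₁) (x q)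
≤ F_newᴴ F_new + (h + (x q)ᴴ h₁ (x q)) + (ε/4 + 4 δ + ε/4)`, and
`tm φ ((x q)ᴴ h₁ (x q)) ≤ ‖x q‖² tm φ h₁ ≤ ε/4` (trace property; `PosP` part (2)).
`F_new = s Y_new`: `N = 1 - R`, `R = cfc (min 1 (t/δ)) S = S R'` with `R' = cfc (1/max t δ) S`
(`min 1 (t/δ) = t / max t δ`), `S = s Y Fᴴ`, so `N s = s - s Y Fᴴ R' s = s (1 - Y Fᴴ R' s)`.
`F_new = F'_new q`: clear. USES: RkSP (`rkSZ`), InsP, PosP, QMonoP. -/
def StpP : Prop := ∀ (A : Type u) [CStarAlgebra A] [PartialOrder A] [StarOrderedRing A]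
  (ι κ ν : Type) [Fintype ι] [DecidableEq ι] [Fintype κ] [DecidableEq κ] [Fintype ν]
  [DecidableEq ν] (a q P : CStarMatrix ι ι A) (b s : CStarMatrix κ κ A) (e : CStarMatrix ν ν A)
  (r : ℝ), 0 ≤ q → q * q = a → 0 ≤ s → s * s = b → 0 ≤ e → 0 ≤ r →
  (∀ σ : QTrace A, σ.dim a + r < σ.dim b) →
  (∀ (c : CStarMatrix κ κ A), (∀ σ : QTrace A, r < σ.dim (c.conjTranspose * c)) →
    ∀ ε : ℝ, 0 < ε → ∃ (Y : CStarMatrix κ ν A) (h : CStarMatrix ν ν A), 0 ≤ h ∧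
      e ≤ (c * Y).conjTranspose * (c * Y) + h + ε • (1 : CStarMatrix ν ν A) ∧
      ∀ φ : TState A, tm φ h ≤ ε) →
  (∀ ε : ℝ, 0 < ε → ∃ (Y F' : CStarMatrix κ ι A) (h : CStarMatrix ι ι A),
    s * Y = F' * q ∧ 0 ≤ h ∧
    P ≤ (s * Y).conjTranspose * (s * Y) + h + ε • (1 : CStarMatrix ι ι A) ∧
    ∀ φ : TState A, tm φ h ≤ ε) →
  ∀ (x : CStarMatrix ν ι A) (ε : ℝ), 0 < ε →
  ∃ (Y F' : CStarMatrix κ ι A) (h : CStarMatrix ι ι A),
    s * Y = F' * q ∧ 0 ≤ h ∧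
    P + (x * q).conjTranspose * e * (x * q) ≤
      (s * Y).conjTranspose * (s * Y) + h + ε • (1 : CStarMatrix ι ι A) ∧
    ∀ φ : TState A, tm φ h ≤ ε

/-- TCGA. Comparison in the fixed point algebra gives tracial comparison with a gap in `A`.
PROOF. Let `ρ < r` and `a, b` with `σ.dim a + r < σ.dim b`, `δ > 0`. `m` = constant of `SBP`
(`m ≥ 0`), `η = (r - ρ)/2`, `θ > 0` with `m (|G| + 1) θ < η`. `FullBP` for `θ`: `n, p, e := c ≤ 1`,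
`y_k` with `∑ y_k e y_kᴴ = 1`, `σ.dim (mp j e) ≤ θ`. `NiceB` (from `NiceP`) with `R = ρ + η`,
width `η`: `z, g`, `ρ + η < ω.dim (cut z g)`, `ω.dim z < ρ + 2η = r`; `σ.dim (mp j z) < r` for all
`σ : QTrace A` by `QPullP`. So `LemSP` gives the hypothesis of `StpP` for `e := mp j e` and every
`c` with `r < σ.dim (cᴴ c)`. In `M_ι(A)`: `1 = ∑_{i,k} x_{ik}ᴴ (mp j e) x_{ik}`, with
`x_{ik} = (E_i (mp j y_k))ᴴ`, `E_i` the column `ι × Unit` with `1` at `i`. So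
`a = q 1 q = ∑_{l} (x_l q)ᴴ (mp j e) (x_l q)` (finite sum over `ι × Fin p`; induction over a
`Finset` or a list). Induction with `StpP`, start `P = 0`, `Y = F' = 0`, `h = 0`, gives for every
`ε > 0`: `a ≤ (s Y)ᴴ (s Y) + h + ε = Yᴴ b Y + h + ε`, `tm φ h ≤ ε` for all `φ`. With
`ε ≤ δ/2` and `2 C |ι| ε < δ²/2`...: put `c' = cut h (δ/2)`: `h ≤ c' + δ/2`, and for `σ : QTrace A`,
with `φ, σ₀` from `DomT A C`: `σ.dim c' ≤ C |ι| σ₀.dim c' ≤ C |ι| (2/δ) σ₀.τ h =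
C |ι| (2/δ) tm φ h ≤ 2 C |ι| ε / δ < δ` (`QCutP`, `IsQ`). USES: SBP, FullBP, NiceP, LemSP, StpP,
QPullP, QCutP. -/
def TcgAP : Prop := ∀ (A B : Type u) [CStarAlgebra A] [PartialOrder A] [StarOrderedRing A]
  [CStarAlgebra B] [PartialOrder B] [StarOrderedRing B] (G : Type) [Group G] [Fintype G]
  (α : G → A ≃⋆ₐ[ℂ] A) (j : B →⋆ₐ[ℂ] A), IsAct α → IsFix α j → Simp A → NoFin A →
  Nonempty (TState A) → AllTr B → ∀ C : ℝ, 0 ≤ C → DomT A C →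
  ∀ ρ r : ℝ, 0 ≤ ρ → ρ < r → HasCompD B ρ → TCG A r

/-- FIX. The first inequality.
PROOF. If `A` has no tracial state it has no quasitrace either (`DomT A C`); then `HasCompD B ρ`
for the `ρ` below: let `rc B < t`. In general: let `t` be a real number with `rc B < t`; there is
`ρ' < t`, `ρ' ≥ 0` with `HasComp B ρ'`, so `HasCompD B ρ'` (`LimEqP`). `A` has a tracial state:
otherwise `QTrace A` is empty, then `QTrace B` is empty (`SBP`), so `HasCompD B 0`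
is true or not; `HasCompD B ρ'` gives `Cu 1 0` over `B` (all `a, b` are comparable), so `Cu 1 0`
over `A` by `MpP` and `1 = 0` in `A`, contradiction to `Simp A` (`Nontrivial`). `TcgAP` with
`r₁ ∈ (ρ', t)` and `CritGP` (with `NiceB B` from `NiceP`) with `r = 2 t > ρ' + r₁`: `HasCompD A (2 t)`,
so `HasComp A (2 t)` and `rc A ≤ 2 t`. USES: TcgAP, CritGP, NiceP, LimEqP, SBP, MpP. -/
def FixP : Prop := ∀ (A B : Type u) [CStarAlgebra A] [PartialOrder A] [StarOrderedRing A]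
  [CStarAlgebra B] [PartialOrder B] [StarOrderedRing B] (G : Type) [Group G] [Fintype G]
  (α : G → A ≃⋆ₐ[ℂ] A) (j : B →⋆ₐ[ℂ] A), IsAct α → IsFix α j → Simp A → NoFin A → AllTr B →
  ∀ C : ℝ, 0 ≤ C → DomT A C → rc A ≤ 2 * rc B

/-- FINAL. Both inequalities.
PROOF. `simpP`, `noFin_self noFinP`, `domT_of domInvP` as in `asr_of_good`
(`Helper29/ZR/Good.lean`) give `Simp A`, `NoFin A`, `DomT A C'`; `FixP` is the first part. Second
part: `crossGP` (or `crossP`) gives `β, jR` on `D = CStarMatrix G G A` with `IsFix β jR`;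
`Simp D` (`matSimpP`), `NoFin D` (from `¬ FiniteDimensional ℂ D` as for `A`), `DomT D C''`
(`domT_mat domInvMat_all`). `FixP` for `D, R`: `rc D ≤ 2 rc R`. And `rc A ≤ |G| rc D` by
`RedCompP` (`redComp_all`), as in `final` (`Helper10/RC/Fin.lean`). So
`rc A / |G| ≤ rc D ≤ 2 rc R`. USES: FixP. -/
def FinalP : Prop := ∀ (A : Type u) [CStarAlgebra A] [PartialOrder A] [StarOrderedRing A],
  IsSimpleC A → ¬ FiniteDimensional ℂ A →
  (∃ C : ℝ, ∀ σ : QTrace A, ∃ φ : TState A, ∀ x : A, 0 ≤ x →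
      σ.τ Unit (one1 x) ≤ C * (φ.φ x).re) →
  ∀ (G : Type) [Group G] [Fintype G] (α : G → A ≃⋆ₐ[ℂ] A), IsAct α →
    (∀ (B : Type u) [CStarAlgebra B] [PartialOrder B] [StarOrderedRing B] (j : B →⋆ₐ[ℂ] A),
      IsFix α j → AllTr B → rc A ≤ 2 * rc B) ∧
    (∀ (R : Type u) [CStarAlgebra R] [PartialOrder R] [StarOrderedRing R] (k : A →⋆ₐ[ℂ] R)
      (w : G → R), IsCross α k w → AllTr R → rc A / (Fintype.card G : ℝ≥0∞) ≤ 2 * rc R)

end RC
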